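import Pool.Agent.H78.Tri.Q

set_option autoImplicit false

open Polynomial

namespace Pool.Agent.H78.Tri

theorem principal_transport {B B' : Type*} [CommRing B] [CommRing B'] (φ : B ≃+* B')
    (D : B → B) (D' : B' → B') (h : ∀ b, φ (D b) = D' (φ b)) (n : ℕ) (hP : Principal D n) :
    Principal D' n := by
  have hit : ∀ j b, φ (D^[j] b) = D'^[j] (φ b) := by
    intro j b
    induction j generalizing b with
    | zero => rfl
    | succ j ih => rw [Function.iterate_succ_apply, ih, h, Function.iterate_succ_apply]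
  have hk : ∀ b, D b = 0 ↔ D' (φ b) = 0 := by
    intro b
    rw [← h, EmbeddingLike.map_eq_zero_iff]
  obtain ⟨a, ha, hg⟩ := hP
  refine ⟨φ a, (hk a).1 ha, ?_⟩
  intro g
  constructor
  · rintro ⟨b, hb, rfl⟩
    obtain ⟨b, rfl⟩ := φ.surjective b
    rw [← hit, EmbeddingLike.map_eq_zero_iff] at hb
    obtain ⟨c, hc, hc'⟩ := (hg _).1 ⟨b, hb, rfl⟩
    exact ⟨φ c, (hk c).1 hc, by rw [← hit, hc', map_mul]⟩
  · rintro ⟨c, hc, rfl⟩
    obtain ⟨c, rfl⟩ := φ.surjective c
    obtain ⟨b, hb, hb'⟩ := (hg _).2 ⟨c, (hk c).2 hc, rfl⟩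
    exact ⟨φ b, by rw [← hit, hb, map_zero], by rw [← hit, hb', map_mul]⟩

section ev
variable {k A : Type*} [Field k] [CommRing A] [Algebra k A]

/-- Evaluation of `k[X][Y][Z]` at a triple. -/
noncomputable def ev (u : Fin 3 → A) : k[X][X][X] →+* A :=
  eval₂RingHom (eval₂RingHom (aeval (u 0) : k[X] →ₐ[k] A).toRingHom (u 1)) (u 2)

@[simp] theorem ev_X (u : Fin 3 → A) : ev (k := k) u X = u 2 := by simp [ev]
@[simp] theorem ev_CX (u : Fin 3 → A) : ev (k := k) u (C X) = u 1 := by simp [ev]
theorem ev_CC (u : Fin 3 → A) (q : k[X]) : ev (k := k) u (C (C q)) = aeval (u 0) q := by simp [ev]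

theorem ev_bij (u : Fin 3 → A)
    (hu : Function.Bijective (MvPolynomial.aeval u : MvPolynomial (Fin 3) k →ₐ[k] A)) :
    Function.Bijective (ev (k := k) u) := by
  set ψ : MvPolynomial (Fin 3) k →ₐ[k] k[X][X][X] :=
    MvPolynomial.aeval (![C (C X), C X, X] : Fin 3 → k[X][X][X]) with hψ
  have h1 : ∀ x, ev (k := k) u (ψ x) = MvPolynomial.aeval u x := by
    intro x
    have : ((ev (k := k) u).comp (ψ : MvPolynomial (Fin 3) k →+* k[X][X][X])) =
        (MvPolynomial.aeval u : MvPolynomial (Fin 3) k →ₐ[k] A) := by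
      apply MvPolynomial.ringHom_ext
      · intro r
        have : ψ (MvPolynomial.C r) = C (C (C r)) := by
          rw [← MvPolynomial.algebraMap_eq, AlgHom.commutes]; rfl
        simp only [RingHom.comp_apply, RingHom.coe_coe, this, ev_CC, aeval_C]
        rw [← MvPolynomial.algebraMap_eq, AlgHom.commutes]
      · intro i
        fin_cases i <;> simp [hψ, ev_CC]
    exact congrArg (fun φ => φ x) this
  have h2 : ∀ y, ψ (ev (k := k) (A := MvPolynomial (Fin 3) k) MvPolynomial.X y) = y := by
    intro y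
    have : ((ψ : MvPolynomial (Fin 3) k →+* k[X][X][X]).comp
        (ev (k := k) (A := MvPolynomial (Fin 3) k) MvPolynomial.X)) = RingHom.id _ := by
      apply Polynomial.ringHom_ext
      · intro q
        have : ((ψ : MvPolynomial (Fin 3) k →+* k[X][X][X]).comp
          (ev (k := k) (A := MvPolynomial (Fin 3) k) MvPolynomial.X)).comp C = C := by
          apply Polynomial.ringHom_ext
          · intro r
            have : (((ψ : MvPolynomial (Fin 3) k →+* k[X][X][X]).comp
              (ev (k := k) (A := MvPolynomial (Fin 3) k) MvPolynomial.X)).comp C).comp C =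
                (C : k[X][X] →+* k[X][X][X]).comp C := by
              apply Polynomial.ringHom_ext
              · intro s
                simp only [RingHom.comp_apply, RingHom.coe_coe, ev_CC, aeval_C, AlgHom.commutes]
                rfl
              · simp [ev_CC, hψ]
            exact congrArg (fun φ => φ r) this
          · simp [hψ]
        exact congrArg (fun φ => φ q) this
      · simp [hψ]
    exact congrArg (fun φ => φ y) this
  constructor
  · intro a b hab
    rw [← h2 a, ← h2 b, h1, h1] at hab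
    rw [← h2 a, ← h2 b, hu.1 hab]
  · intro a
    obtain ⟨x, hx⟩ := hu.2 a
    exact ⟨ψ x, by rw [h1, hx]⟩

/-- The ring isomorphism given by a coordinate system. -/
noncomputable def evEquiv (u : Fin 3 → A)
    (hu : Function.Bijective (MvPolynomial.aeval u : MvPolynomial (Fin 3) k →ₐ[k] A)) :
    k[X][X][X] ≃+* A := RingEquiv.ofBijective (ev (k := k) u) (ev_bij u hu)

theorem exists_pull (u : Fin 3 → A)
    (hu : Function.Bijective (MvPolynomial.aeval u : MvPolynomial (Fin 3) k →ₐ[k] A))
    (D : Derivation k A A) (h0 : D (u 0) = 0) :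
    ∃ D' : Derivation k[X] k[X][X][X] k[X][X][X], ∀ b, evEquiv u hu (D' b) = D (evEquiv u hu b) := by
  set φ := evEquiv u hu with hφ
  have hφe : ∀ b, φ b = ev (k := k) u b := fun b => rfl
  have hr : ∀ r : k[X], D (φ (C (C r))) = 0 := by
    intro r
    rw [hφe, ev_CC, Derivation.map_aeval, h0, smul_zero]
  refine ⟨Derivation.mk' { toFun := fun b => φ.symm (D (φ b)), map_add' := ?_, map_smul' := ?_ } ?_, ?_⟩
  · intro a b
    rw [map_add, map_add, map_add]
  · intro r b
    rw [smul_eq_CC, map_mul, D.leibniz, hr, smul_zero, add_zero, smul_eq_mul, map_mul,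
      RingEquiv.symm_apply_apply, RingHom.id_apply, smul_eq_CC]
  · intro a b
    show φ.symm (D (φ (a * b))) = a • φ.symm (D (φ b)) + b • φ.symm (D (φ a))
    rw [map_mul, D.leibniz, map_add, smul_eq_mul, smul_eq_mul, map_mul, map_mul,
      RingEquiv.symm_apply_apply, RingEquiv.symm_apply_apply, smul_eq_mul, smul_eq_mul]
  · intro b
    show φ (φ.symm (D (φ b))) = D (φ b)
    rw [RingEquiv.apply_symm_apply]

/-- A derivation with a slice. -/
theorem principal_slice [CharZero k] (D : Derivation k A A) (s : A) (c : k) (hc : c ≠ 0)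
    (hs : D s = algebraMap k A c) (n : ℕ) : Principal (⇑D) n := by
  have hit : ∀ (j : ℕ) (a : A) (m : ℕ), D a = 0 → (⇑D)^[j] (a * s ^ m) =
      (m.descFactorial j : A) * (algebraMap k A c) ^ j * (a * s ^ (m - j)) := by
    intro j
    induction j with
    | zero => intro a m _; simp
    | succ j ih =>
      intro a m ha
      rw [Function.iterate_succ_apply', ih a m ha]
      have h1 : D ((m.descFactorial j : A) * (algebraMap k A c) ^ j * a) = 0 := by
        rw [← map_pow, ← map_natCast (algebraMap k A), ← map_mul, ← Algebra.smul_def, D.map_smul,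
          ha, smul_zero]
      rw [← mul_assoc, D.leibniz, h1, smul_zero, add_zero, Derivation.leibniz_pow, hs,
        Nat.descFactorial_succ, Nat.cast_mul, pow_succ, Nat.sub_sub]
      simp only [smul_eq_mul, nsmul_eq_mul]
      ring
  refine ⟨1, D.map_one_eq_zero, ?_⟩
  intro g
  constructor
  · rintro ⟨b, hb, rfl⟩
    exact ⟨(⇑D)^[n] b, by rw [← Function.iterate_succ_apply' (⇑D), hb], by rw [one_mul]⟩
  · rintro ⟨a, ha, rfl⟩
    have hcn : (n.factorial : k) * c ^ n ≠ 0 :=
      mul_ne_zero (by exact_mod_cast n.factorial_ne_zero) (pow_ne_zero _ hc)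
    refine ⟨((n.factorial : k) * c ^ n)⁻¹ • a * s ^ n, ?_, ?_⟩
    · rw [hit (n + 1) _ n (by rw [D.map_smul, ha, smul_zero]),
        Nat.descFactorial_of_lt (Nat.lt_succ_self n), Nat.cast_zero, zero_mul, zero_mul]
    · rw [hit n _ n (by rw [D.map_smul, ha, smul_zero]), Nat.descFactorial_self, Nat.sub_self,
        pow_zero, mul_one, one_mul, ← map_natCast (algebraMap k A), ← map_pow, ← map_mul,
        ← Algebra.smul_def, smul_smul, mul_inv_cancel₀ hcn, one_smul]

/-- Triangularizable derivations. -/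
theorem principal_triangular [CharZero k] [IsDomain A] (D : Derivation k A A) (u : Fin 3 → A)
    (hu : Function.Bijective (MvPolynomial.aeval u : MvPolynomial (Fin 3) k →ₐ[k] A))
    (h0 : ∃ c : k, D (u 0) = algebraMap k A c)
    (h1 : D (u 1) ∈ Algebra.adjoin k {u 0})
    (h2 : D (u 2) ∈ Algebra.adjoin k {u 0, u 1}) (n : ℕ) : Principal (⇑D) n := by
  obtain ⟨c, hc⟩ := h0
  rcases eq_or_ne c 0 with rfl | hc0
  · rw [map_zero] at hc
    obtain ⟨D', hD'⟩ := exists_pull u hu D hc
    refine principal_transport (evEquiv u hu) (⇑D') (⇑D) hD' n ?_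
    obtain ⟨f, hf⟩ : ∃ f : k[X], aeval (u 0) f = D (u 1) := by
      rw [Algebra.adjoin_singleton_eq_range_aeval] at h1
      exact h1
    have hall : ∀ y ∈ Algebra.adjoin k {u 0, u 1}, ∃ g : k[X][X], evEquiv u hu (C g) = y := by
      intro y hy
      induction hy using Algebra.adjoin_induction with
      | mem x hx =>
        rcases hx with rfl | rfl
        · exact ⟨C X, by show ev (k := k) u _ = _; rw [ev_CC, aeval_X]⟩
        · exact ⟨X, by show ev (k := k) u _ = _; rw [ev_CX]⟩
      | algebraMap r => exact ⟨C (C r), by show ev (k := k) u _ = _; rw [ev_CC, aeval_C]⟩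
      | add x y _ _ hx hy =>
        obtain ⟨a, rfl⟩ := hx
        obtain ⟨b, rfl⟩ := hy
        exact ⟨a + b, by rw [C_add, map_add]⟩
      | mul x y _ _ hx hy =>
        obtain ⟨a, rfl⟩ := hx
        obtain ⟨b, rfl⟩ := hy
        exact ⟨a * b, by rw [C_mul, map_mul]⟩
    obtain ⟨g, hg⟩ := hall _ h2
    refine principal_tri D' f g ?_ ?_ n
    · apply (evEquiv u hu).injective
      rw [hD']
      show D (ev (k := k) u _) = ev (k := k) u _
      rw [ev_CX, ev_CC, hf]
    · apply (evEquiv u hu).injective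
      rw [hD', hg]
      show D (ev (k := k) u _) = _
      rw [ev_X]
  · exact principal_slice D (u 0) c hc0 hc n

end ev

end Pool.Agent.H78.Tri
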