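import Mathlib

set_option autoImplicit false

open Polynomial

namespace Pool.Agent.H78.Tri

variable {R : Type*} [CommRing R]

/-- The substitution `T ↦ p`, `Y ↦ y` on `R[T][Y]`. -/
noncomputable def sub2 {S : Type*} [CommRing S] [Algebra R S] (p y : S) : R[X][X] →+* S :=
  eval₂RingHom (aeval p : R[X] →ₐ[R] S).toRingHom y

section basic
variable {S : Type*} [CommRing S] [Algebra R S] (p y : S)

@[simp] theorem sub2_C (q : R[X]) : sub2 p y (C q) = aeval p q := by
  simp [sub2]

@[simp] theorem sub2_X : sub2 (R := R) p y X = y := by
  simp [sub2]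

theorem sub2_monomial (l : ℕ) (q : R[X]) : sub2 p y (monomial l q) = aeval p q * y ^ l := by
  simp [sub2, eval₂_monomial]

theorem sub2_CC (r : R) : sub2 p y (C (C r)) = algebraMap R S r := by
  simp [sub2]

theorem sub2_eq_sum (F : R[X][X]) (d : ℕ) (h : F.degree < d) :
    sub2 p y F = ∑ j ∈ Finset.range d, aeval p (F.coeff j) * y ^ j := by
  rcases eq_or_ne F 0 with rfl | hF
  · simp
  have h' : F.natDegree < d := (natDegree_lt_iff_degree_lt hF).2 h
  simp only [sub2, coe_eval₂RingHom]
  rw [eval₂_eq_sum_range' _ h']
  rfl

theorem sub2_mapC (h : R[X]) : sub2 p y (h.map C) = aeval y h := by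
  simp only [sub2, coe_eval₂RingHom, eval₂_map]
  rw [aeval_def]
  congr 1
  ext r
  simp

end basic

/-- Substituting constants in the outer variable. -/
theorem sub2_CP (Γ : R[X]) (a : R[X][X]) :
    sub2 (C Γ : R[X][X]) (C X) a = C (sub2 Γ X a) := by
  have : (sub2 (R := R) (C Γ : R[X][X]) (C X)) = (C : R[X] →+* R[X][X]).comp (sub2 (R := R) Γ X) := by
    apply Polynomial.ringHom_ext
    · intro q
      simp only [RingHom.comp_apply, sub2_C]
      induction q using Polynomial.induction_on' with
      | add p q hp hq => simp [hp, hq]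
      | monomial n r =>
        simp [aeval_monomial]
    · simp
  rw [this]; rfl

/-- Compatibility with a reduction of the coefficients. -/
theorem map_sub2 {K : Type*} [CommRing K] (π : R →+* K) (G0 : R[X]) (a : R[X][X]) :
    (sub2 G0 X a).map π = sub2 (G0.map π) X (a.map (mapRingHom π)) := by
  have : ((mapRingHom π).comp (sub2 (R := R) G0 X)) = (sub2 (R := K) (G0.map π) X).comp (mapRingHom (mapRingHom π)) := by
    apply Polynomial.ringHom_ext
    · intro q
      simp only [RingHom.comp_apply, sub2_C, coe_mapRingHom, map_C]
      induction q using Polynomial.induction_on' with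
      | add p q hp hq => simp [hp, hq]
      | monomial n r =>
        simp [aeval_monomial]
    · simp
  exact congrArg (fun φ => φ a) this

theorem map_sub2_two {K : Type*} [CommRing K] (π : R →+* K) (P : R[X][X]) (a : R[X][X]) :
    (sub2 P (C X) a).map (mapRingHom π) =
      sub2 (P.map (mapRingHom π)) (C X) (a.map (mapRingHom π)) := by
  have : ((mapRingHom (mapRingHom π)).comp (sub2 (R := R) P (C X))) =
      (sub2 (R := K) (P.map (mapRingHom π)) (C X)).comp (mapRingHom (mapRingHom π)) := by
    apply Polynomial.ringHom_ext
    · intro q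
      simp only [RingHom.comp_apply, sub2_C, coe_mapRingHom, map_C]
      induction q using Polynomial.induction_on' with
      | add p q hp hq => simp [hp, hq]
      | monomial n r =>
        simp [aeval_monomial]
    · simp
  exact congrArg (fun φ => φ a) this

end Pool.Agent.H78.Tri
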