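import Pool.Agent.H78.Tri.A

set_option autoImplicit false

open Polynomial

namespace Pool.Agent.H78.Tri

variable {R : Type*} [CommRing R]

/-- Data: an `R`-derivation of `B = R[Y][Z]` with `D Y = f`, `D Z = G'(Y)`. -/
structure TriData (D : Derivation R R[X][X] R[X][X]) (f : R) (G : R[X]) : Prop where
  hy : D (C X) = C (C f)
  hz : D X = C (derivative G)

/-- The element `f Z - G(Y)`. -/
noncomputable def PP (f : R) (G : R[X]) : R[X][X] := C (C f) * X - C G

variable {D : Derivation R R[X][X] R[X][X]} {f : R} {G : R[X]}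

theorem C_eq_aeval (h : R[X]) : (C h : R[X][X]) = aeval (C X : R[X][X]) h := by
  induction h using Polynomial.induction_on' with
  | add p q hp hq => simp [hp, hq]
  | monomial n r => simp [← C_mul_X_pow_eq_monomial]

theorem smul_eq_CC (r : R) (b : R[X][X]) : r • b = C (C r) * b := by
  rw [Algebra.smul_def]; rfl

theorem D_CC (D : Derivation R R[X][X] R[X][X]) (r : R) : D (C (C r)) = 0 := by
  have : (C (C r) : R[X][X]) = algebraMap R R[X][X] r := rfl
  rw [this]; exact D.map_algebraMap r

theorem D_C (hD : TriData D f G) (h : R[X]) : D (C h) = C (C f) * C (derivative h) := by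
  rw [C_eq_aeval h, Derivation.map_aeval, ← C_eq_aeval, hD.hy, smul_eq_mul, mul_comm]

theorem D_PP (hD : TriData D f G) : D (PP f G) = 0 := by
  rw [PP, map_sub, Derivation.leibniz, D_CC, hD.hz, D_C hD]
  simp

theorem D_sub2 (hD : TriData D f G) (F : R[X][X]) :
    D (sub2 (PP f G) (C X) F) = f • sub2 (PP f G) (C X) (derivative F) := by
  induction F using Polynomial.induction_on' with
  | add p q hp hq => simp [hp, hq]
  | monomial n r =>
    rw [sub2_monomial, Derivation.leibniz, Derivation.map_aeval, D_PP hD, derivative_monomial,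
      sub2_monomial, Derivation.leibniz_pow, hD.hy]
    simp only [smul_eq_mul, mul_zero, add_zero, map_mul, map_natCast, nsmul_eq_mul]
    rw [smul_eq_CC]
    ring

theorem D_iter_smul (D : Derivation R R[X][X] R[X][X]) (j : ℕ) (r : R) (b : R[X][X]) :
    (⇑D)^[j] (r • b) = r • (⇑D)^[j] b := by
  induction j generalizing b with
  | zero => rfl
  | succ j ih => rw [Function.iterate_succ_apply, Function.iterate_succ_apply, D.map_smul, ih]

theorem D_iter_mul (D : Derivation R R[X][X] R[X][X]) (j : ℕ) (c b : R[X][X]) (hc : D c = 0) :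
    (⇑D)^[j] (c * b) = c * (⇑D)^[j] b := by
  induction j generalizing b with
  | zero => rfl
  | succ j ih =>
    rw [Function.iterate_succ_apply, Function.iterate_succ_apply, D.leibniz, hc, smul_zero,
      add_zero, smul_eq_mul, ih]

theorem D_iter_sub2 (hD : TriData D f G) (j : ℕ) (F : R[X][X]) :
    (⇑D)^[j] (sub2 (PP f G) (C X) F) = f ^ j • sub2 (PP f G) (C X) (derivative^[j] F) := by
  induction j generalizing F with
  | zero => simp
  | succ j ih =>
    rw [Function.iterate_succ_apply, D_sub2 hD, D_iter_smul, ih, Function.iterate_succ_apply,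
      smul_smul, pow_succ, mul_comm]

theorem iterate_derivative_top {S : Type*} [CommRing S] (F : S[X]) (n : ℕ) (h : F.natDegree ≤ n) :
    derivative^[n] F = C ((n.factorial : S) * F.coeff n) := by
  ext m
  rw [coeff_iterate_derivative, coeff_C]
  split_ifs with hm
  · subst hm
    simp [Nat.descFactorial_self]
  · rw [coeff_eq_zero_of_natDegree_lt (by omega)]
    simp

theorem iterate_derivative_top' {S : Type*} [CommRing S] (F : S[X]) (n : ℕ) (h : F.natDegree ≤ n) :
    derivative^[n + 1] F = 0 := by
  rw [Function.iterate_succ_apply', iterate_derivative_top F n h, derivative_C]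

theorem D_iter_top (hD : TriData D f G) (n : ℕ) (F : R[X][X]) (h : F.natDegree ≤ n) :
    (⇑D)^[n] (sub2 (PP f G) (C X) F) =
      (f ^ n * n.factorial) • aeval (PP f G) (F.coeff n) := by
  rw [D_iter_sub2 hD, iterate_derivative_top F n h, sub2_C, map_mul, map_natCast, mul_smul]
  congr 1
  rw [Algebra.smul_def, map_natCast]

theorem D_iter_top' (hD : TriData D f G) (n : ℕ) (F : R[X][X]) (h : F.natDegree ≤ n) :
    (⇑D)^[n + 1] (sub2 (PP f G) (C X) F) = 0 := by
  rw [D_iter_sub2 hD, iterate_derivative_top' F n h, map_zero, smul_zero]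

end Pool.Agent.H78.Tri
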