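import Pool.Agent.H78.Tri.D

set_option autoImplicit false

open Polynomial

namespace Pool.Agent.H78.Tri

variable {R : Type*} [CommRing R] [IsDomain R]
variable {D : Derivation R R[X][X] R[X][X]} {f : R} {G : R[X]}

theorem natDegree_PP (hf : f ≠ 0) : (PP f G).natDegree = 1 := by
  have h : PP f G = C (C f) * X + C (-G) := by simp [PP, sub_eq_add_neg]
  rw [h]
  exact natDegree_linear (by simpa using hf)

theorem aeval_comp (P : R[X][X]) (q : R[X]) :
    aeval P q = (q.map (C : R →+* R[X])).comp P := by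
  rw [comp, eval₂_map, aeval_def]
  rfl

theorem aeval_PP_injective (hf : f ≠ 0) (q : R[X]) (h : aeval (PP f G) q = 0) : q = 0 := by
  rw [aeval_comp, comp_eq_zero_iff] at h
  rcases h with h | ⟨-, h⟩
  · exact (Polynomial.map_eq_zero_iff C_injective).1 h
  · have := natDegree_PP (G := G) hf
    rw [h, natDegree_C] at this
    omega

theorem smul_eq_zero_B {r : R} (hr : r ≠ 0) {b : R[X][X]} (h : r • b = 0) : b = 0 := by
  rw [smul_eq_CC] at h
  rcases mul_eq_zero.1 h with h | h
  · exact absurd h (by simpa using hr)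
  · exact h

theorem smul_cancel_B {r : R} (hr : r ≠ 0) {b c : R[X][X]} (h : r • b = r • c) : b = c := by
  rw [← sub_eq_zero]
  apply smul_eq_zero_B hr
  rw [smul_sub, h, sub_self]

variable [CharZero R]

theorem sub2_PP_eq_zero (hD : TriData D f G) (hf : f ≠ 0) (F : R[X][X])
    (h : sub2 (PP f G) (C X) F = 0) : F = 0 := by
  induction hn : F.natDegree using Nat.strong_induction_on generalizing F with
  | _ n ih =>
    have h1 : sub2 (PP f G) (C X) (derivative F) = 0 := by
      apply smul_eq_zero_B hf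
      rw [← D_sub2 hD, h, map_zero]
    have h2 : derivative F = 0 := by
      by_contra hne
      have hn0 : F.natDegree ≠ 0 := by
        intro h0
        rw [natDegree_eq_zero] at h0
        obtain ⟨q, rfl⟩ := h0
        simp at hne
      have hlt : (derivative F).natDegree < F.natDegree := natDegree_derivative_lt hn0
      exact hne (ih _ (hn ▸ hlt) _ h1 rfl)
    have h3 : F.natDegree = 0 := natDegree_eq_zero_of_derivative_eq_zero h2
    rw [natDegree_eq_zero] at h3
    obtain ⟨q, rfl⟩ := h3
    rw [sub2_C] at h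
    rw [aeval_PP_injective hf q h, C_0]

omit [IsDomain R] [CharZero R] in
theorem reach (f : R) (G : R[X]) (b : R[X][X]) :
    ∃ (M : ℕ) (F : R[X][X]), f ^ M • b = sub2 (PP f G) (C X) F := by
  induction b using Polynomial.induction_on' with
  | add p q hp hq =>
    obtain ⟨M, F, h⟩ := hp
    obtain ⟨M', F', h'⟩ := hq
    refine ⟨M + M', f ^ M' • F + f ^ M • F', ?_⟩
    have e : ∀ (r : R) (F : R[X][X]), sub2 (PP f G) (C X) (r • F) = r • sub2 (PP f G) (C X) F := by
      intro r F
      rw [smul_eq_CC, map_mul, sub2_CC, Algebra.smul_def]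
    rw [smul_add, map_add, e, e, ← h, ← h', smul_smul, smul_smul, ← pow_add, ← pow_add,
      add_comm M' M]
  | monomial l q =>
    refine ⟨l, q.map C * (C X + G.map C) ^ l, ?_⟩
    rw [map_mul, map_pow, map_add, sub2_mapC, sub2_mapC, sub2_C, aeval_X, ← C_eq_aeval,
      ← C_eq_aeval, PP, ← C_mul_X_pow_eq_monomial, smul_eq_CC]
    simp only [map_pow]
    ring

theorem degree_bound (hD : TriData D f G) (hf : f ≠ 0) (n M : ℕ) (b F : R[X][X])
    (hb : (⇑D)^[n + 1] b = 0) (hF : f ^ M • b = sub2 (PP f G) (C X) F) : F.natDegree ≤ n := by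
  have h1 : f ^ (n + 1) • sub2 (PP f G) (C X) (derivative^[n + 1] F) = 0 := by
    rw [← D_iter_sub2 hD, ← hF, D_iter_smul, hb, smul_zero]
  have h2 := sub2_PP_eq_zero hD hf _ (smul_eq_zero_B (pow_ne_zero _ hf) h1)
  rw [natDegree_le_iff_coeff_eq_zero]
  intro N hN
  have h3 := congrArg (fun q => q.coeff (N - (n + 1))) h2
  simp only [coeff_iterate_derivative, coeff_zero] at h3
  rw [Nat.sub_add_cancel (by omega), nsmul_eq_mul] at h3
  rcases mul_eq_zero.1 h3 with h | h
  · exfalso
    have : N.descFactorial (n + 1) ≠ 0 := by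
      rw [Ne, Nat.descFactorial_eq_zero_iff_lt]; omega
    exact this (by exact_mod_cast h)
  · exact h

end Pool.Agent.H78.Tri
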