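import Pool.Agent.H78.Tri.W

set_option autoImplicit false

open Polynomial

namespace Pool.Agent.H78.Tri

variable {R : Type*} [CommRing R] [IsDomain R]

section ind
variable {K : Type*} [Field K] (π : R →+* K)
  (p : R) (hp : ∀ r, π r = 0 ↔ p ∣ r) (hp0 : p ≠ 0) (f : R) (G : R[X]) (hfp : p ∣ f)
  (hd : 0 < ((-G).map π).natDegree) (w : R[X][X]) (v : K[X]) (c : K) (hc : c ≠ 0)
  (hw : w.map (mapRingHom π) = C v + C (C c) * X)

include hp hfp hd hc hw in
theorem ind_one (q : ℕ) (e : ℕ → R[X][X]) (he : ∀ i, (e i).degree < ((-G).map π).natDegree)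
    (β : R[X][X])
    (h : ∑ i ∈ Finset.range (q + 1), sub2 (PP f G) (C X) (e i) * w ^ i = p • β) :
    ∀ i ≤ q, ∃ e', e i = C (C p) * e' := by
  intro i hi
  set Γ := (-G).map π with hΓ
  have hP : (PP f G).map (mapRingHom π) = C Γ := by
    rw [PP_eq, smul_eq_CC]
    simp [(hp f).2 hfp, hΓ]
  have h1 := congrArg (fun t => t.map (mapRingHom π)) h
  simp only [Polynomial.map_sum, Polynomial.map_mul, Polynomial.map_pow, hw, smul_eq_CC, map_C,
    coe_mapRingHom, (hp p).2 dvd_rfl, C_0, zero_mul] at h1
  have h2 : ∀ j, (sub2 (PP f G) (C X) (e j)).map (mapRingHom π) =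
      C (sub2 Γ X ((e j).map (mapRingHom π))) := by
    intro j
    rw [map_sub2_two, hP, sub2_CP]
  simp only [h2] at h1
  set E : K[X][X] := ∑ j ∈ Finset.range (q + 1),
    monomial j (sub2 Γ X ((e j).map (mapRingHom π))) with hE
  have h3 : E.comp (C v + C (C c) * X) = 0 := by
    rw [hE, ← coe_compRingHom_apply, map_sum, ← h1]
    apply Finset.sum_congr rfl
    intro j _
    rw [coe_compRingHom_apply, monomial_comp]
  have h4 : E = 0 := by
    rw [comp_eq_zero_iff] at h3
    rcases h3 with h3 | ⟨-, h3⟩
    · exact h3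
    · exfalso
      have h5 : (C v + C (C c) * X : K[X][X]).natDegree = 1 := by
        rw [add_comm]
        exact natDegree_linear (by simpa using hc)
      rw [h3, natDegree_C] at h5
      omega
  have h5 : sub2 Γ X ((e i).map (mapRingHom π)) = 0 := by
    have := congrArg (fun t => t.coeff i) h4
    simp only [hE, finsetSum_coeff, coeff_monomial, coeff_zero] at this
    rw [Finset.sum_ite_eq' ] at this
    rwa [if_pos (Finset.mem_range.2 (by omega))] at this
  have h6 := indep_base Γ hd _ (lt_of_le_of_lt degree_map_le (he i)) h5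
  exact dvd_of_map_zero2 π p hp _ h6

include hp hfp hd hc hw hp0 in
theorem ind_N (q N : ℕ) (e : ℕ → R[X][X])
    (he : ∀ i, (e i).degree < ((-G).map π).natDegree) (β : R[X][X])
    (h : ∑ i ∈ Finset.range (q + 1), sub2 (PP f G) (C X) (e i) * w ^ i = p ^ N • β) :
    ∀ i ≤ q, ∃ e', e i = C (C (p ^ N)) * e' := by
  induction N generalizing e β with
  | zero => exact fun i _ => ⟨e i, by simp⟩
  | succ N ih =>
    have h1 := ind_one π p hp f G hfp hd w v c hc hw q e he (p ^ N • β)
      (by rw [h, smul_smul, pow_succ, mul_comm])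
    choose! e' he' using h1
    have h2 := ih (fun i => if i ≤ q then e' i else 0) (by
      intro i
      split_ifs with hi
      · have := he i
        rw [he' i hi, degree_mul, degree_C (by simpa using hp0), zero_add] at this
        exact this
      · rw [degree_zero]; exact WithBot.bot_lt_coe _) β (by
      apply smul_cancel_B hp0
      rw [smul_smul, ← pow_succ', ← h, Finset.smul_sum]
      apply Finset.sum_congr rfl
      intro i hi
      have hi' : i ≤ q := by have := Finset.mem_range.1 hi; omega
      rw [he' i hi', if_pos hi', map_mul, sub2_CC, smul_eq_CC]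
      have : (algebraMap R R[X][X] p) = C (C p) := rfl
      rw [this]; ring)
    intro i hi
    obtain ⟨e'', he''⟩ := h2 i hi
    rw [if_pos hi] at he''
    refine ⟨e'', ?_⟩
    rw [he' i hi, he'', ← mul_assoc, ← C_mul, ← C_mul, pow_succ, mul_comm p]

end ind

theorem expand {S : Type*} [CommRing S] [Nontrivial S] (ψ : S[X]) (hψ : ψ.Monic) (r : ℕ)
    (hr : r < ψ.natDegree) (q : ℕ) (F : S[X]) (hF : F.natDegree ≤ ψ.natDegree * q + r) :
    ∃ e : ℕ → S[X], (∀ i, (e i).degree < ψ.natDegree) ∧
      F = ∑ i ∈ Finset.range (q + 1), e i * ψ ^ i ∧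
      (e q).coeff r = F.coeff (ψ.natDegree * q + r) := by
  induction q generalizing F with
  | zero =>
    refine ⟨fun i => F, ?_, by simp, by simp⟩
    intro i
    apply lt_of_le_of_lt degree_le_natDegree
    exact_mod_cast lt_of_le_of_lt (by simpa using hF) hr
  | succ q ih =>
    have hdeg : (F /ₘ ψ).natDegree ≤ ψ.natDegree * q + r := by
      rw [natDegree_divByMonic F hψ, mul_add] at *
      omega
    obtain ⟨e, he1, he2, he3⟩ := ih _ hdeg
    have hmod : (F %ₘ ψ).degree < ψ.natDegree := by
      rw [← degree_eq_natDegree hψ.ne_zero]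
      exact degree_modByMonic_lt F hψ
    refine ⟨fun i => Nat.casesOn i (F %ₘ ψ) e, ?_, ?_, ?_⟩
    · intro i
      cases i with
      | zero => exact hmod
      | succ i => exact he1 i
    · rw [Finset.sum_range_succ']
      simp only [pow_zero, mul_one]
      conv_lhs => rw [← modByMonic_add_div F ψ, he2, Finset.mul_sum]
      rw [add_comm]
      congr 1
      apply Finset.sum_congr rfl
      intro i _
      rw [pow_succ]; ring
    · simp only
      rw [he3]
      conv_rhs => rw [← modByMonic_add_div F ψ]
      rw [coeff_add]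
      have h1 : (F %ₘ ψ).coeff (ψ.natDegree * (q + 1) + r) = 0 := by
        apply coeff_eq_zero_of_degree_lt
        apply lt_of_lt_of_le hmod
        have : ψ.natDegree ≤ ψ.natDegree * (q + 1) + r := by
          rw [mul_add]; omega
        exact_mod_cast this
      have h2 : ψ.natDegree * (q + 1) + r = ψ.natDegree + (ψ.natDegree * q + r) := by ring
      rw [h1, zero_add, h2, coeff_mul_add_eq_of_natDegree_le le_rfl hdeg]
      have : ψ.coeff ψ.natDegree = 1 := hψ
      rw [this, one_mul]

end Pool.Agent.H78.Tri
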