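import Pool.Agent.H78.Tri.A

set_option autoImplicit false

open Polynomial

namespace Pool.Agent.H78.Tri

section field
variable {K : Type*} [Field K]

theorem div_base (Γ : K[X]) (hd : 0 < Γ.natDegree) (h : K[X]) :
    ∃ a : K[X][X], a.degree < Γ.natDegree ∧ sub2 Γ X a = h := by
  induction hn : h.natDegree using Nat.strong_induction_on generalizing h with
  | _ n ih =>
    have hΓ : Γ ≠ 0 := by rintro rfl; simp at hd
    by_cases hlt : h.natDegree < Γ.natDegree
    · refine ⟨h.map C, ?_, ?_⟩
      · rcases eq_or_ne h 0 with rfl | h0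
        · simp
        · rw [degree_map_eq_of_injective C_injective, degree_eq_natDegree h0]
          exact_mod_cast hlt
      · rw [sub2_mapC, aeval_X_left_apply]
    · push Not at hlt
      have hh : h ≠ 0 := by rintro rfl; rw [natDegree_zero] at hlt; omega
      have h1 : (h / Γ).natDegree < n := by
        rw [← hn]
        by_cases h0 : h / Γ = 0
        · rw [h0, natDegree_zero]; omega
        · exact natDegree_lt_natDegree h0 (degree_div_lt hh (natDegree_pos_iff_degree_pos.1 hd))
      obtain ⟨a, ha, ha'⟩ := ih _ h1 (h / Γ) rfl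
      refine ⟨C X * a + (h % Γ).map C, ?_, ?_⟩
      · apply lt_of_le_of_lt (degree_add_le _ _)
        rw [max_lt_iff]
        constructor
        · apply lt_of_le_of_lt (degree_mul_le _ _)
          apply lt_of_le_of_lt _ ha
          calc (C (X : K[X])).degree + a.degree ≤ 0 + a.degree := by
                gcongr; exact degree_C_le
            _ = a.degree := zero_add _
        · apply lt_of_le_of_lt degree_map_le
          rw [← degree_eq_natDegree hΓ]
          exact EuclideanDomain.mod_lt _ hΓ
      · rw [map_add, map_mul, sub2_C, aeval_X, sub2_mapC, aeval_X_left_apply, ha',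
          EuclideanDomain.div_add_mod]

theorem indep_base (Γ : K[X]) (hd : 0 < Γ.natDegree) (a : K[X][X]) (ha : a.degree < Γ.natDegree)
    (h : sub2 Γ X a = 0) : a = 0 := by
  rw [sub2_eq_sum _ _ _ _ ha] at h
  set d := Γ.natDegree
  have key : ∀ j ∈ Finset.range d, aeval Γ (a.coeff j) * X ^ j = 0 := by
    have hdis := degree_sum_eq_of_disjoint (fun j => aeval Γ (a.coeff j) * X ^ j)
      (Finset.range d) (by
        intro i hi j hj hij heq
        simp only [Set.mem_ofPred_eq, Finset.mem_range] at hi hj
        have hc : ∀ q : K[X], aeval Γ q = q.comp Γ := fun q => by rw [comp, aeval_def]; rfl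
        simp only [Function.comp_apply, hc] at heq hi hj
        have hi2 : (a.coeff i).comp Γ ≠ 0 := left_ne_zero_of_mul hi.2
        have hj2 : (a.coeff j).comp Γ ≠ 0 := left_ne_zero_of_mul hj.2
        rw [degree_mul, degree_mul, degree_X_pow, degree_X_pow, degree_eq_natDegree hi2,
          degree_eq_natDegree hj2, natDegree_comp, natDegree_comp] at heq
        have heq' : (a.coeff i).natDegree * d + i = (a.coeff j).natDegree * d + j := by
          exact_mod_cast heq
        have e1 : ((a.coeff i).natDegree * d + i) % d = i := by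
          rw [Nat.mul_add_mod', Nat.mod_eq_of_lt hi.1]
        have e2 : ((a.coeff j).natDegree * d + j) % d = j := by
          rw [Nat.mul_add_mod', Nat.mod_eq_of_lt hj.1]
        exact hij (by rw [← e1, heq', e2]))
    rw [h, degree_zero] at hdis
    intro j hj
    have := (Finset.sup_eq_bot_iff _ _).1 hdis.symm j hj
    exact degree_eq_bot.1 this
  ext1 j
  rw [coeff_zero]
  by_cases hj : j < d
  · have h1 := key j (Finset.mem_range.2 hj)
    rcases mul_eq_zero.1 h1 with h2 | h2
    · have hc : aeval Γ (a.coeff j) = (a.coeff j).comp Γ := by rw [comp, aeval_def]; rfl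
      rw [hc, comp_eq_zero_iff] at h2
      rcases h2 with h2 | ⟨-, h2⟩
      · exact h2
      · exfalso
        have : d = 0 := by
          change Γ.natDegree = 0
          rw [h2, natDegree_C]
        omega
    · exact absurd h2 (pow_ne_zero _ X_ne_zero)
  · apply coeff_eq_zero_of_degree_lt
    apply lt_of_lt_of_le ha
    exact_mod_cast not_lt.1 hj

end field

section lift
variable {R K : Type*} [CommRing R] [Field K] (π : R →+* K) (hπ : Function.Surjective π)
  (p : R) (hp : ∀ r, π r = 0 ↔ p ∣ r)

include hp in
theorem dvd_of_map_zero (q : R[X]) (h : q.map π = 0) : ∃ q', q = C p * q' := by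
  have : C p ∣ q := by
    rw [C_dvd_iff_dvd_coeff]
    intro i
    rw [← hp, ← coeff_map, h, coeff_zero]
  exact this

include hp in
theorem dvd_of_map_zero2 (q : R[X][X]) (h : q.map (mapRingHom π) = 0) : ∃ q', q = C (C p) * q' := by
  have : C (C p) ∣ q := by
    rw [C_dvd_iff_dvd_coeff]
    intro i
    have h1 : (q.coeff i).map π = 0 := by
      have := congrArg (fun q => q.coeff i) h
      simpa [coeff_map] using this
    obtain ⟨q', hq'⟩ := dvd_of_map_zero π p hp _ h1
    exact ⟨q', hq'⟩
  exact this

include hπ in
theorem exists_lift (q : K[X][X]) : ∃ a : R[X][X], a.map (mapRingHom π) = q ∧ a.degree = q.degree := by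
  apply exists_degree_eq_of_mem_lifts
  rw [mem_lifts]
  obtain ⟨a, ha⟩ := map_surjective (mapRingHom π) (map_surjective π hπ) q
  exact ⟨a, ha⟩

include hπ hp in
theorem lift_div (G0 : R[X]) (hd : 0 < (G0.map π).natDegree) (m : ℕ) (h : R[X]) :
    ∃ a : R[X][X], a.degree < (G0.map π).natDegree ∧
      ∃ h' : R[X], h = sub2 G0 X a + C (p ^ m) * h' := by
  induction m generalizing h with
  | zero =>
    refine ⟨0, ?_, h, by simp⟩
    rw [degree_zero]; exact WithBot.bot_lt_coe _
  | succ m ih =>
    obtain ⟨abar, ha1, ha2⟩ := div_base (G0.map π) hd (h.map π)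
    obtain ⟨a, ha, ha'⟩ := exists_lift π hπ abar
    have h0 : (h - sub2 G0 X a).map π = 0 := by
      rw [Polynomial.map_sub, map_sub2, ha, ha2, sub_self]
    obtain ⟨h1, hh1⟩ := dvd_of_map_zero π p hp _ h0
    obtain ⟨a', ha1', h', hh'⟩ := ih h1
    refine ⟨a + C (C p) * a', ?_, h', ?_⟩
    · apply lt_of_le_of_lt (degree_add_le _ _)
      rw [max_lt_iff]
      refine ⟨by rw [ha']; exact ha1, ?_⟩
      apply lt_of_le_of_lt (degree_mul_le _ _)
      apply lt_of_le_of_lt _ ha1'
      calc (C (C p)).degree + a'.degree ≤ 0 + a'.degree := by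
            gcongr; exact degree_C_le
        _ = a'.degree := zero_add _
    · rw [map_add, map_mul, sub2_CC, pow_succ, C_mul]
      rw [sub_eq_iff_eq_add] at hh1
      rw [hh1, hh', Polynomial.algebraMap_eq]
      ring

end lift

end Pool.Agent.H78.Tri
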