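import Pool.Agent.H78.Tri.V

set_option autoImplicit false

open Polynomial

namespace Pool.Agent.H78.Tri

variable {R : Type*} [CommRing R]

/-- The `n`-th image ideal of `D` is principal. -/
def Principal {B : Type*} [CommRing B] (D : B → B) (n : ℕ) : Prop :=
  ∃ a : B, D a = 0 ∧ ∀ g : B, (∃ b : B, D^[n + 1] b = 0 ∧ D^[n] b = g) ↔
    (∃ c : B, D c = 0 ∧ g = a * c)

theorem unit_factorial [Algebra ℚ R] (n : ℕ) : IsUnit (n.factorial : R) := by
  have h : IsUnit ((n.factorial : ℚ)) := by
    rw [isUnit_iff_ne_zero]; exact_mod_cast n.factorial_ne_zero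
  have := h.map (algebraMap ℚ R)
  rwa [map_natCast] at this

/-- The ideal of constants in the `n`-th image ideal. -/
def constIdeal (D : Derivation R R[X][X] R[X][X]) (n : ℕ) : Ideal R where
  carrier := {r | ∃ b : R[X][X], (⇑D)^[n + 1] b = 0 ∧ (⇑D)^[n] b = r • (1 : R[X][X])}
  zero_mem' := ⟨0, by rw [iterate_map_zero], by rw [iterate_map_zero, zero_smul]⟩
  add_mem' := by
    rintro r s ⟨b, hb, hb'⟩ ⟨c, hc, hc'⟩
    exact ⟨b + c, by rw [iterate_map_add, hb, hc, add_zero],
      by rw [iterate_map_add, hb', hc', add_smul]⟩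
  smul_mem' := by
    rintro r s ⟨b, hb, hb'⟩
    exact ⟨r • b, by rw [D_iter_smul, hb, smul_zero],
      by rw [D_iter_smul, hb', smul_smul, smul_eq_mul]⟩

theorem principal_coprime [IsDomain R] [IsPrincipalIdealRing R] [Algebra ℚ R]
    {D : Derivation R R[X][X] R[X][X]} {f : R} {G : R[X]} (hD : TriData D f G) (hf : f ≠ 0)
    (hcop : ∀ p : R, Prime p → p ∣ f → ¬ C p ∣ derivative G) (n : ℕ) :
    Principal (⇑D) n := by
  have hchar : CharZero R := algebraRat.charZero R
  obtain ⟨ρ, hρ⟩ := (IsPrincipalIdealRing.principal (constIdeal D n)).principal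
  have hmem : ∀ r, r ∈ constIdeal D n ↔ ρ ∣ r := by
    intro r; rw [hρ]; exact Ideal.mem_span_singleton
  have hun := unit_factorial (R := R) n
  have h1 : ρ ∣ f ^ n * n.factorial := by
    rw [← hmem]
    refine ⟨sub2 (PP f G) (C X) (X ^ n), D_iter_top' hD n _ (natDegree_X_pow_le n), ?_⟩
    rw [D_iter_top hD n _ (natDegree_X_pow_le n), coeff_X_pow_self, map_one]
  have hρ0 : ρ ≠ 0 := by
    rintro rfl
    rw [zero_dvd_iff] at h1
    exact mul_ne_zero (pow_ne_zero _ hf) hun.ne_zero h1
  have key : ∀ b : R[X][X], (⇑D)^[n + 1] b = 0 → ∃ c : R[X][X], (⇑D)^[n] b = ρ • c := by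
    intro b hb
    apply B_dvd_of_pp ρ _ hρ0
    intro p e hp hpe
    by_cases hpf : p ∣ f
    · obtain ⟨f1, hf1, hf1'⟩ := (FiniteMultiplicity.of_prime_left hp hf).exists_eq_pow_mul_and_not_dvd
      set m := multiplicity p f with hm
      have hm0 : 0 < m := by
        rcases Nat.eq_zero_or_pos m with h | h
        · exfalso
          rw [h, pow_zero, one_mul] at hf1
          exact hf1' (hf1 ▸ hpf)
        · exact h
      have hmax : (Ideal.span {p}).IsMaximal :=
        PrincipalIdealRing.isMaximal_of_irreducible hp.irreducible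
      let _ : Field (R ⧸ Ideal.span {p}) := Ideal.Quotient.field _
      set π : R →+* (R ⧸ Ideal.span {p}) := Ideal.Quotient.mk _ with hπ
      have hπp : ∀ r, π r = 0 ↔ p ∣ r := by
        intro r
        rw [hπ, Ideal.Quotient.eq_zero_iff_mem, Ideal.mem_span_singleton]
      have hd : 0 < ((-G).map π).natDegree := by
        rcases Nat.eq_zero_or_pos ((-G).map π).natDegree with h | h
        · exfalso
          have h2 : (derivative G).map π = 0 := by
            have h3 : derivative ((-G).map π) = 0 := by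
              rw [natDegree_eq_zero] at h
              obtain ⟨x, hx⟩ := h
              rw [← hx, derivative_C]
            rw [derivative_map, derivative_neg, Polynomial.map_neg, neg_eq_zero] at h3
            exact h3
          obtain ⟨t, ht⟩ := dvd_of_map_zero π p hπp _ h2
          exact hcop p hp hpf ⟨t, ht⟩
        · exact h
      obtain ⟨hA, hB⟩ := local_main hD π Ideal.Quotient.mk_surjective p hp hπp f1 m hm0 hf1 hf1' hd n
      have h4 : ρ ∣ p ^ (m * (n - n / ((-G).map π).natDegree)) * (f1 ^ n * n.factorial) :=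
        (hmem _).1 hA
      have h5 : ¬ p ∣ f1 ^ n * n.factorial := by
        intro h
        rcases hp.dvd_or_dvd h with h | h
        · exact hf1' (hp.dvd_of_dvd_pow h)
        · exact hp.not_isUnit (isUnit_of_dvd_unit h hun)
      have h6 : p ^ e ∣ p ^ (m * (n - n / ((-G).map π).natDegree)) :=
        hp.pow_dvd_of_dvd_mul_right _ h5 (hpe.trans h4)
      obtain ⟨s, hs⟩ := h6
      obtain ⟨b', hb'⟩ := hB b hb
      exact ⟨s • b', by rw [hb', hs, smul_smul]⟩
    · have he : e = 0 := by
        by_contra he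
        have h2 : p ∣ f ^ n * n.factorial := ((dvd_pow_self p he).trans hpe).trans h1
        rcases hp.dvd_or_dvd h2 with h | h
        · exact hpf (hp.dvd_of_dvd_pow h)
        · exact hp.not_isUnit (isUnit_of_dvd_unit h hun)
      exact ⟨(⇑D)^[n] b, by rw [he, pow_zero, one_smul]⟩
  obtain ⟨b0, hb0, hb0'⟩ := (hmem ρ).2 dvd_rfl
  refine ⟨ρ • 1, by rw [D.map_smul, D.map_one_eq_zero, smul_zero], ?_⟩
  intro g
  constructor
  · rintro ⟨b, hb, rfl⟩
    obtain ⟨c, hc⟩ := key b hb
    refine ⟨c, ?_, by rw [hc, smul_mul_assoc, one_mul]⟩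
    apply smul_eq_zero_B hρ0
    rw [← D.map_smul, ← hc, ← Function.iterate_succ_apply' (⇑D), hb]
  · rintro ⟨c, hc, rfl⟩
    refine ⟨c * b0, ?_, ?_⟩
    · rw [D_iter_mul D _ c b0 hc, hb0, mul_zero]
    · rw [D_iter_mul D _ c b0 hc, hb0', mul_comm]

end Pool.Agent.H78.Tri
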