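import Pool.Agent.H78.Tri.P

set_option autoImplicit false

open Polynomial

namespace Pool.Agent.H78.Tri

variable {R : Type*} [CommRing R]

theorem exists_antideriv [Algebra ℚ R] (g : R[X]) : ∃ G : R[X], derivative G = g := by
  induction g using Polynomial.induction_on' with
  | add p q hp hq =>
    obtain ⟨P, rfl⟩ := hp
    obtain ⟨Q, rfl⟩ := hq
    exact ⟨P + Q, derivative_add⟩
  | monomial n r =>
    refine ⟨monomial (n + 1) (algebraMap ℚ R (1 / (n + 1)) * r), ?_⟩
    rw [derivative_monomial]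
    congr 1
    have : algebraMap ℚ R (1 / (n + 1)) * ((n + 1 : ℕ) : R) = 1 := by
      rw [← map_natCast (algebraMap ℚ R), ← map_mul, ← map_one (algebraMap ℚ R)]
      congr 1
      push_cast
      field_simp
    calc algebraMap ℚ R (1 / (n + 1)) * r * ((n + 1 : ℕ) : R)
        = r * (algebraMap ℚ R (1 / (n + 1)) * ((n + 1 : ℕ) : R)) := by ring
      _ = r := by rw [this, mul_one]

theorem principal_zero {B : Type*} [CommRing B] (D : B → B) (h1 : D 1 = 0) : Principal D 0 := by
  refine ⟨1, h1, ?_⟩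
  intro g
  constructor
  · rintro ⟨b, hb, rfl⟩
    exact ⟨b, hb, by rw [Function.iterate_zero_apply, one_mul]⟩
  · rintro ⟨c, hc, rfl⟩
    exact ⟨c, hc, by rw [Function.iterate_zero_apply, one_mul]⟩

theorem exists_div_der [IsDomain R] (D : Derivation R R[X][X] R[X][X]) (δ : R) (hδ : δ ≠ 0)
    (h : ∀ b, ∃ c : R[X][X], D b = δ • c) :
    ∃ D' : Derivation R R[X][X] R[X][X], ∀ b, D b = δ • D' b := by
  choose F hF using h
  refine ⟨Derivation.mk' { toFun := F, map_add' := ?_, map_smul' := ?_ } ?_, ?_⟩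
  · intro a b
    apply smul_cancel_B hδ
    rw [smul_add, ← hF, ← hF, ← hF, map_add]
  · intro r b
    apply smul_cancel_B hδ
    rw [← hF, D.map_smul, hF b, RingHom.id_apply, smul_comm]
  · intro a b
    apply smul_cancel_B hδ
    show δ • F (a * b) = δ • (a • F b + b • F a)
    rw [← hF, D.leibniz, hF a, hF b, smul_add, smul_comm a, smul_comm b]
  · intro b
    exact hF b

theorem iter_scale (D D' : Derivation R R[X][X] R[X][X]) (δ : R)
    (h : ∀ b, D b = δ • D' b) (n : ℕ) (b : R[X][X]) :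
    (⇑D)^[n] b = δ ^ n • (⇑D')^[n] b := by
  induction n generalizing b with
  | zero => simp
  | succ n ih =>
    rw [Function.iterate_succ_apply', ih, D.map_smul, h, smul_smul, ← pow_succ,
      ← Function.iterate_succ_apply' (⇑D')]

theorem principal_scale [IsDomain R] (D D' : Derivation R R[X][X] R[X][X]) (δ : R) (hδ : δ ≠ 0)
    (h : ∀ b, D b = δ • D' b) (n : ℕ) (hD' : Principal (⇑D') n) : Principal (⇑D) n := by
  obtain ⟨a, ha, hg⟩ := hD'
  have hk : ∀ b, D b = 0 ↔ D' b = 0 := by
    intro b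
    rw [h]
    exact ⟨fun h => smul_eq_zero_B hδ h, fun h => by rw [h, smul_zero]⟩
  have hk' : ∀ b, (⇑D)^[n + 1] b = 0 ↔ (⇑D')^[n + 1] b = 0 := by
    intro b
    rw [iter_scale D D' δ h]
    exact ⟨fun h => smul_eq_zero_B (pow_ne_zero _ hδ) h, fun h => by rw [h, smul_zero]⟩
  refine ⟨δ ^ n • a, by rw [hk, D'.map_smul, ha, smul_zero], ?_⟩
  intro g
  constructor
  · rintro ⟨b, hb, rfl⟩
    obtain ⟨c, hc, hc'⟩ := (hg _).1 ⟨b, (hk' b).1 hb, rfl⟩
    exact ⟨c, (hk c).2 hc, by rw [iter_scale D D' δ h, hc', smul_mul_assoc]⟩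
  · rintro ⟨c, hc, rfl⟩
    obtain ⟨b, hb, hb'⟩ := (hg _).2 ⟨c, (hk c).1 hc, rfl⟩
    exact ⟨b, (hk' b).2 hb, by rw [iter_scale D D' δ h, hb', smul_mul_assoc]⟩

theorem exists_gcd [IsDomain R] [IsPrincipalIdealRing R] (f : R) (hf : f ≠ 0) (g : R[X]) :
    ∃ (δ f' : R) (g' : R[X]), f = δ * f' ∧ g = C δ * g' ∧
      ∀ p : R, Prime p → p ∣ f' → ¬ C p ∣ g' := by
  have hwf : WellFounded (DvdNotUnit (α := R)) := wellFounded_dvdNotUnit
  revert hf g
  refine hwf.induction (C := fun f => f ≠ 0 → ∀ g : R[X], ∃ (δ f' : R) (g' : R[X]), f = δ * f' ∧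
    g = C δ * g' ∧ ∀ p : R, Prime p → p ∣ f' → ¬ C p ∣ g') f ?_
  · intro f ih hf g
    by_cases hgood : ∀ p : R, Prime p → p ∣ f → ¬ C p ∣ g
    · exact ⟨1, f, g, by rw [one_mul], by rw [C_1, one_mul], hgood⟩
    · push Not at hgood
      obtain ⟨p, hp, ⟨f1, hf1⟩, ⟨g1, hg1⟩⟩ := hgood
      have hf10 : f1 ≠ 0 := by rintro rfl; exact hf (by rw [hf1, mul_zero])
      obtain ⟨δ, f', g', h1, h2, h3⟩ := ih f1 ⟨hf10, p, hp.not_isUnit, by rw [hf1, mul_comm]⟩ hf10 g1
      exact ⟨p * δ, f', g', by rw [hf1, h1, mul_assoc], by rw [hg1, h2, C_mul, mul_assoc], h3⟩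

/-- The case `D Y = 0`. -/
theorem principal_f_zero [IsDomain R] [Algebra ℚ R] (D : Derivation R R[X][X] R[X][X])
    (g : R[X]) (hy : D (C X) = 0) (hz : D X = C g) (n : ℕ) : Principal (⇑D) n := by
  have hchar : CharZero R := algebraRat.charZero R
  have hC : ∀ h : R[X], D (C h) = 0 := by
    intro h
    rw [C_eq_aeval h, Derivation.map_aeval, hy, smul_zero]
  have hDb : ∀ b, D b = C g * derivative b := by
    intro b
    induction b using Polynomial.induction_on' with
    | add p q hp hq => rw [map_add, hp, hq, derivative_add]; ring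
    | monomial l q =>
      rw [← C_mul_X_pow_eq_monomial, Derivation.leibniz, hC, Derivation.leibniz_pow, hz,
        derivative_C_mul_X_pow]
      simp only [smul_eq_mul, nsmul_eq_mul, mul_zero, add_zero, C_mul, map_natCast]
      ring
  rcases Nat.eq_zero_or_pos n with rfl | hn
  · exact principal_zero _ D.map_one_eq_zero
  rcases eq_or_ne g 0 with rfl | hg
  · refine ⟨0, map_zero D, ?_⟩
    intro g
    have hz : ∀ b, (⇑D)^[n] b = 0 := by
      intro b
      obtain ⟨m, rfl⟩ : ∃ m, n = m + 1 := ⟨n - 1, by omega⟩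
      rw [Function.iterate_succ_apply', hDb, C_0, zero_mul]
    constructor
    · rintro ⟨b, hb, rfl⟩
      exact ⟨0, map_zero D, by rw [hz, mul_zero]⟩
    · rintro ⟨c, hc, rfl⟩
      exact ⟨0, by rw [iterate_map_zero], by rw [iterate_map_zero, zero_mul]⟩
  · have hCg : D (C g) = 0 := hC g
    have hit : ∀ j b, (⇑D)^[j] b = C g ^ j * derivative^[j] b := by
      intro j b
      induction j generalizing b with
      | zero => simp
      | succ j ih =>
        rw [Function.iterate_succ_apply, ih, hDb, iterate_derivative_C_mul,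
          ← Function.iterate_succ_apply derivative, pow_succ]
        ring
    have hCg0 : (C g : R[X][X]) ≠ 0 := by simpa using hg
    refine ⟨C g ^ n, by rw [← C_pow]; exact hC _, ?_⟩
    intro g'
    constructor
    · rintro ⟨b, hb, rfl⟩
      refine ⟨derivative^[n] b, ?_, hit n b⟩
      rw [hit] at hb
      rw [hDb, ← Function.iterate_succ_apply' derivative]
      rw [(mul_eq_zero.1 hb).resolve_left (pow_ne_zero _ hCg0), mul_zero]
    · rintro ⟨c, hc, rfl⟩
      have hc' : derivative c = 0 := by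
        rw [hDb] at hc
        exact (mul_eq_zero.1 hc).resolve_left hCg0
      obtain ⟨c0, rfl⟩ := natDegree_eq_zero.1 (derivative_eq_zero.1 hc')
      obtain ⟨s, hs⟩ := unit_factorial (R := R) n
      refine ⟨C (C (↑s⁻¹ : R)) * (C c0 * X ^ n), ?_, ?_⟩
      · rw [hit, iterate_derivative_top', mul_zero]
        refine (natDegree_C_mul_le _ _).trans ((natDegree_C_mul_le _ _).trans (natDegree_X_pow_le n))
      · rw [hit, iterate_derivative_top]
        · rw [coeff_C_mul, coeff_C_mul, coeff_X_pow_self, mul_one, ← C_eq_natCast, ← hs]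
          congr 1
          rw [← mul_assoc, ← C_mul, Units.mul_inv, C_1, one_mul]
        · refine (natDegree_C_mul_le _ _).trans ((natDegree_C_mul_le _ _).trans (natDegree_X_pow_le n))

/-- Triangular derivations over a PID containing `ℚ`. -/
theorem principal_tri [IsDomain R] [IsPrincipalIdealRing R] [Algebra ℚ R]
    (D : Derivation R R[X][X] R[X][X]) (f : R) (g : R[X]) (hy : D (C X) = C (C f))
    (hz : D X = C g) (n : ℕ) : Principal (⇑D) n := by
  rcases eq_or_ne f 0 with rfl | hf
  · exact principal_f_zero D g (by rw [hy, C_0, C_0]) hz n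
  obtain ⟨δ, f', g', h1, h2, h3⟩ := exists_gcd f hf g
  have hδ : δ ≠ 0 := by rintro rfl; exact hf (by rw [h1, zero_mul])
  have hf' : f' ≠ 0 := by rintro rfl; exact hf (by rw [h1, mul_zero])
  have hC : ∀ h : R[X], D (C h) = δ • (C (C f') * C (derivative h)) := by
    intro h
    rw [C_eq_aeval h, Derivation.map_aeval, ← C_eq_aeval, hy, smul_eq_mul, h1, smul_eq_CC, C_mul,
      C_mul]
    ring
  have hall : ∀ b, ∃ c : R[X][X], D b = δ • c := by
    intro b
    induction b using Polynomial.induction_on' with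
    | add p q hp hq =>
      obtain ⟨c, hc⟩ := hp
      obtain ⟨d, hd⟩ := hq
      exact ⟨c + d, by rw [map_add, hc, hd, smul_add]⟩
    | monomial l q =>
      refine ⟨X ^ l * (C (C f') * C (derivative q)) + C q * ((l : R[X][X]) * X ^ (l - 1) * C g'), ?_⟩
      rw [← C_mul_X_pow_eq_monomial, Derivation.leibniz, hC, Derivation.leibniz_pow, hz, h2]
      simp only [smul_eq_mul, nsmul_eq_mul, smul_eq_CC, C_mul]
      ring
  obtain ⟨D', hD'⟩ := exists_div_der D δ hδ hall
  obtain ⟨G, hG⟩ := exists_antideriv g'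
  have hT : TriData D' f' G := by
    constructor
    · apply smul_cancel_B hδ
      rw [← hD', hy, h1, smul_eq_CC, C_mul, C_mul]
    · apply smul_cancel_B hδ
      rw [← hD', hz, h2, hG, smul_eq_CC, C_mul]
  exact principal_scale D D' δ hδ hD' n (principal_coprime hT hf' (by rw [hG]; exact h3) n)

end Pool.Agent.H78.Tri
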