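import Pool.Agent.H78.Tri.I

set_option autoImplicit false

open Polynomial

namespace Pool.Agent.H78.Tri

variable {R : Type*} [CommRing R] [IsDomain R] [CharZero R]
variable {D : Derivation R R[X][X] R[X][X]} {f : R} {G : R[X]}

/-- Local analysis at a prime `p` dividing `f`. -/
theorem local_main (hD : TriData D f G) {K : Type*} [Field K] (π : R →+* K)
    (hπ : Function.Surjective π)
    (p : R) (hpp : Prime p) (hp : ∀ r, π r = 0 ↔ p ∣ r) (f1 : R) (m : ℕ) (hm : 0 < m)
    (hf : f = p ^ m * f1) (hf1 : ¬ p ∣ f1) (hd : 0 < ((-G).map π).natDegree) (n : ℕ) :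
    (∃ b : R[X][X], (⇑D)^[n + 1] b = 0 ∧
      (⇑D)^[n] b = (p ^ (m * (n - n / ((-G).map π).natDegree)) * (f1 ^ n * n.factorial)) •
        (1 : R[X][X])) ∧
    ∀ b : R[X][X], (⇑D)^[n + 1] b = 0 →
      ∃ b' : R[X][X], (⇑D)^[n] b = p ^ (m * (n - n / ((-G).map π).natDegree)) • b' := by
  obtain ⟨ψ, w, v, c, hψ, hψd, hψw, hc, hw⟩ := exists_w π hπ p hp f f1 G m hm hf hf1 hd
  set d := ((-G).map π).natDegree with hdd
  set q := n / d with hq
  set r := n % d with hr
  have hn : d * q + r = n := Nat.div_add_mod n d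
  have hrd : r < d := Nat.mod_lt _ hd
  have hqn : q ≤ n := Nat.div_le_self _ _
  have hp0 : p ≠ 0 := hpp.ne_zero
  have hf10 : f1 ≠ 0 := fun h => hf1 (h ▸ dvd_zero p)
  have hf0 : f ≠ 0 := by rw [hf]; exact mul_ne_zero (pow_ne_zero _ hp0) hf10
  have hmn : m * n = m * q + m * (n - q) := by rw [← mul_add]; congr 1; omega
  have hfac : (n.factorial : R) ≠ 0 := by exact_mod_cast n.factorial_ne_zero
  have hfn : f ^ n = p ^ (m * q) * (p ^ (m * (n - q)) * f1 ^ n) := by
    rw [hf, mul_pow, ← pow_mul, hmn, pow_add]; ring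
  constructor
  · -- existence
    refine ⟨(C X) ^ r * w ^ q, ?_, ?_⟩
    · have h1 : p ^ (m * q) • ((C X : R[X][X]) ^ r * w ^ q) =
          sub2 (PP f G) (C X) (X ^ r * ψ ^ q) := by
        rw [map_mul, map_pow, map_pow, sub2_X, hψw, _root_.smul_pow, ← pow_mul, smul_eq_CC, smul_eq_CC]
        ring
      have h2 : (X ^ r * ψ ^ q : R[X][X]).natDegree ≤ n := by
        rw [(monic_X_pow r).natDegree_mul (hψ.pow q), natDegree_X_pow, hψ.natDegree_pow, hψd, ← hn]
        rw [mul_comm]; omega
      have h3 := D_iter_top' hD n _ h2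
      rw [← h1, D_iter_smul] at h3
      exact smul_eq_zero_B (pow_ne_zero _ hp0) h3
    · have h1 : p ^ (m * q) • ((C X : R[X][X]) ^ r * w ^ q) =
          sub2 (PP f G) (C X) (X ^ r * ψ ^ q) := by
        rw [map_mul, map_pow, map_pow, sub2_X, hψw, _root_.smul_pow, ← pow_mul, smul_eq_CC, smul_eq_CC]
        ring
      have hmon : (X ^ r * ψ ^ q : R[X][X]).Monic := (monic_X_pow r).mul (hψ.pow q)
      have h2 : (X ^ r * ψ ^ q : R[X][X]).natDegree = n := by
        rw [(monic_X_pow r).natDegree_mul (hψ.pow q), natDegree_X_pow, hψ.natDegree_pow, hψd, ← hn]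
        ring
      have h3 := D_iter_top hD n _ h2.le
      have h4 : (X ^ r * ψ ^ q : R[X][X]).coeff n = 1 := by
        conv_lhs => rw [← h2]
        exact hmon
      rw [← h1, D_iter_smul, h4, map_one, hfn] at h3
      apply smul_cancel_B (pow_ne_zero (m * q) hp0)
      rw [h3, smul_smul]
      congr 1; ring
  · intro b hb
    obtain ⟨M, F, hF⟩ := reach f G b
    have hFn : F.natDegree ≤ n := degree_bound hD hf0 n M b F hb hF
    have hnt : Nontrivial R[X] := inferInstance
    obtain ⟨e, he1, he2, he3⟩ := expand ψ hψ r (by rw [hψd]; exact hrd) q F (by rw [hψd, hn]; exact hFn)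
    rw [hψd] at he1 he3
    rw [hn] at he3
    have h1 : ∑ i ∈ Finset.range (q + 1), sub2 (PP f G) (C X) (C (C (p ^ (m * i))) * e i) * w ^ i =
        p ^ (m * M) • (f1 ^ M • b) := by
      have : p ^ (m * M) • (f1 ^ M • b) = f ^ M • b := by
        rw [smul_smul, hf, mul_pow, ← pow_mul]
      rw [this, hF]
      conv_rhs => rw [he2]
      rw [map_sum]
      apply Finset.sum_congr rfl
      intro i _
      have a1 : sub2 (PP f G) (C X) (C (C (p ^ (m * i))) * e i) =
          C (C (p ^ (m * i))) * sub2 (PP f G) (C X) (e i) := by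
        rw [map_mul, sub2_CC]; rfl
      have a2 : sub2 (PP f G) (C X) (e i * ψ ^ i) =
          sub2 (PP f G) (C X) (e i) * (C (C (p ^ (m * i))) * w ^ i) := by
        rw [map_mul, map_pow _ ψ i, hψw, _root_.smul_pow, ← pow_mul, smul_eq_CC]
      rw [a1, a2]; ring
    have h2 := ind_N π p hp hp0 f G (by rw [hf]; exact dvd_mul_of_dvd_left (dvd_pow_self _ hm.ne') _)
      hd w v c hc hw q (m * M) _ (by
        intro i
        apply lt_of_le_of_lt (degree_mul_le _ _)
        apply lt_of_le_of_lt _ (he1 i)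
        calc (C (C (p ^ (m * i)))).degree + (e i).degree ≤ 0 + (e i).degree := by
              gcongr; exact degree_C_le
          _ = (e i).degree := zero_add _) _ h1 q le_rfl
    obtain ⟨e', he'⟩ := h2
    have h3 : C (p ^ (m * q)) * F.coeff n = C (p ^ (m * M)) * e'.coeff r := by
      have := congrArg (fun t => t.coeff r) he'
      simp only [coeff_C_mul] at this
      rw [he3] at this
      exact this
    have h4 := D_iter_top hD n F hFn
    rw [← hF, D_iter_smul] at h4
    have h5 : (p ^ (m * q)) • aeval (PP f G) (F.coeff n) =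
        (p ^ (m * M)) • aeval (PP f G) (e'.coeff r) := by
      have := congrArg (aeval (PP f G)) h3
      rw [map_mul, map_mul, aeval_C, aeval_C, ← Algebra.smul_def, ← Algebra.smul_def] at this
      exact this
    have h6 : (p ^ (m * q) * p ^ (m * M)) • (f1 ^ M • (⇑D)^[n] b) =
        (p ^ (m * q) * p ^ (m * M)) • ((p ^ (m * (n - q)) * f1 ^ n * n.factorial) •
          aeval (PP f G) (e'.coeff r)) := by
      calc (p ^ (m * q) * p ^ (m * M)) • (f1 ^ M • (⇑D)^[n] b)
          = p ^ (m * q) • (f ^ M • (⇑D)^[n] b) := by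
            rw [smul_smul, smul_smul, hf, mul_pow, ← pow_mul]; congr 1; ring
        _ = (f ^ n * n.factorial) • (p ^ (m * q) • aeval (PP f G) (F.coeff n)) := by
            rw [h4, smul_smul, smul_smul]; congr 1; ring
        _ = _ := by
            rw [h5, hfn, smul_smul, smul_smul]; congr 1; ring
    have h7 := smul_cancel_B (mul_ne_zero (pow_ne_zero _ hp0) (pow_ne_zero _ hp0)) h6
    have h8 : (C (C p) : R[X][X]) ^ (m * (n - q)) ∣ C (C (f1 ^ M)) * (⇑D)^[n] b := by
      rw [← smul_eq_CC, h7]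
      refine ⟨(f1 ^ n * n.factorial : R) • aeval (PP f G) (e'.coeff r), ?_⟩
      rw [← C_pow, ← C_pow, ← smul_eq_CC, smul_smul]
      congr 1; ring
    have hpB : Prime (C (C p) : R[X][X]) := prime_C_iff.2 (prime_C_iff.2 hpp)
    have h9 : ¬ (C (C p) : R[X][X]) ∣ C (C (f1 ^ M)) := by
      intro h
      rw [C_dvd_iff_dvd_coeff] at h
      have h' := h 0
      rw [coeff_C_zero, C_dvd_iff_dvd_coeff] at h'
      have h'' := h' 0
      rw [coeff_C_zero] at h''
      exact hf1 (hpp.dvd_of_dvd_pow h'')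
    obtain ⟨b', hb'⟩ := hpB.pow_dvd_of_dvd_mul_left _ h9 h8
    refine ⟨b', ?_⟩
    rw [hb', smul_eq_CC, C_pow, C_pow]

end Pool.Agent.H78.Tri
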