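import Pool.Agent.H78.Tri.U

set_option autoImplicit false

open Polynomial

namespace Pool.Agent.H78.Tri

/-- Divisibility can be tested on prime powers. -/
theorem dvd_of_pp {R : Type*} [CommRing R] [IsDomain R] [UniqueFactorizationMonoid R]
    (ρ x : R) (hρ : ρ ≠ 0) (h : ∀ (p : R) (e : ℕ), Prime p → p ^ e ∣ ρ → p ^ e ∣ x) : ρ ∣ x := by
  induction ρ using UniqueFactorizationMonoid.induction_on_coprime with
  | h0 => exact absurd rfl hρ
  | h1 hu => exact hu.dvd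
  | hpr i hp => exact h _ i hp dvd_rfl
  | hcp hxy hx hy =>
    rename_i a b
    have ha : a ≠ 0 := fun h0 => hρ (by rw [h0, zero_mul])
    have hb : b ≠ 0 := fun h0 => hρ (by rw [h0, mul_zero])
    exact IsRelPrime.mul_dvd hxy
      (hx ha fun p e hp hpe => h p e hp (hpe.mul_right _))
      (hy hb fun p e hp hpe => h p e hp (hpe.mul_left _))

theorem CC_dvd_iff {R : Type*} [CommRing R] (r : R) (b : R[X][X]) :
    (∃ c : R[X][X], b = r • c) ↔ ∀ i j, r ∣ (b.coeff i).coeff j := by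
  have h1 : (∃ c : R[X][X], b = r • c) ↔ C (C r) ∣ b := by
    constructor
    · rintro ⟨c, rfl⟩; exact ⟨c, smul_eq_CC r c⟩
    · rintro ⟨c, rfl⟩; exact ⟨c, (smul_eq_CC r c).symm⟩
  rw [h1, C_dvd_iff_dvd_coeff]
  simp only [C_dvd_iff_dvd_coeff]

theorem B_dvd_of_pp {R : Type*} [CommRing R] [IsDomain R] [UniqueFactorizationMonoid R]
    (ρ : R) (b : R[X][X]) (hρ : ρ ≠ 0)
    (h : ∀ (p : R) (e : ℕ), Prime p → p ^ e ∣ ρ → ∃ c : R[X][X], b = p ^ e • c) :
    ∃ c : R[X][X], b = ρ • c := by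
  rw [CC_dvd_iff]
  intro i j
  apply dvd_of_pp _ _ hρ
  intro p e hp hpe
  exact (CC_dvd_iff _ _).1 (h p e hp hpe) i j

end Pool.Agent.H78.Tri
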