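import Pool.Agent.H78.Tri.E
import Pool.Agent.H78.Tri.K

set_option autoImplicit false

open Polynomial

namespace Pool.Agent.H78.Tri

variable {R : Type*} [CommRing R]

theorem PP_eq (f : R) (G : R[X]) : PP f G = C (-G) + f • X := by
  rw [PP, smul_eq_CC, C_neg]; ring

/-- Modulo `f` the element `P` is `-G(Y)`. -/
theorem sub2_congr (f : R) (G : R[X]) (a : R[X][X]) :
    ∃ u : R[X][X], sub2 (PP f G) (C X) a = C (sub2 (-G) X a) + f • u := by
  rw [← sub2_CP]
  induction a using Polynomial.induction_on' with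
  | add a b ha hb =>
    obtain ⟨u, hu⟩ := ha
    obtain ⟨v, hv⟩ := hb
    refine ⟨u + v, ?_⟩
    rw [map_add, map_add, hu, hv, smul_add]; ring
  | monomial l q =>
    have h : (PP f G - C (-G)) ∣ aeval (PP f G) q - aeval (C (-G) : R[X][X]) q := by
      rw [aeval_def, aeval_def]
      rw [eval₂_eq_eval_map, eval₂_eq_eval_map]
      exact sub_dvd_eval_sub _ _ _
    obtain ⟨t, ht⟩ := h
    refine ⟨X * t * C X ^ l, ?_⟩
    rw [sub2_monomial, sub2_monomial, smul_eq_CC]
    have e : PP f G - C (-G) = C (C f) * X := by rw [PP, C_neg]; ring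
    rw [e] at ht
    rw [sub_eq_iff_eq_add.1 ht]
    ring

theorem exists_w {K : Type*} [Field K] (π : R →+* K) (hπ : Function.Surjective π)
    (p : R) (hp : ∀ r, π r = 0 ↔ p ∣ r) (f f1 : R) (G : R[X]) (m : ℕ) (hm : 0 < m)
    (hf : f = p ^ m * f1) (hf1 : ¬ p ∣ f1) (hd : 0 < ((-G).map π).natDegree) :
    ∃ (ψ w : R[X][X]) (v : K[X]) (c : K), ψ.Monic ∧ ψ.natDegree = ((-G).map π).natDegree ∧
      sub2 (PP f G) (C X) ψ = p ^ m • w ∧ c ≠ 0 ∧ w.map (mapRingHom π) = C v + C (C c) * X := by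
  classical
  set Γ := (-G).map π with hΓ
  set d := Γ.natDegree with hdd
  have hΓ0 : Γ ≠ 0 := by rintro h; rw [hdd, h, natDegree_zero] at hd; omega
  have hlc : Γ.leadingCoeff ≠ 0 := leadingCoeff_ne_zero.2 hΓ0
  obtain ⟨l, hl⟩ := hπ (Γ.leadingCoeff)⁻¹
  -- the remainder
  have hρd : ((X : K[X]) ^ d - C (π l) * Γ).degree < d := by
    have h1 : ((X : K[X]) ^ d).degree = d := degree_X_pow d
    rw [← h1]
    apply degree_sub_lt_left
    · rw [h1, degree_mul, degree_C (by rw [hl]; exact inv_ne_zero hlc), zero_add,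
        degree_eq_natDegree hΓ0]
    · exact pow_ne_zero _ X_ne_zero
    · rw [leadingCoeff_X_pow, leadingCoeff_mul, leadingCoeff_C, hl, inv_mul_cancel₀ hlc]
  obtain ⟨ρ, hρ, hρ'⟩ : ∃ ρ : R[X], ρ.map π = (X : K[X]) ^ d - C (π l) * Γ ∧
      ρ.degree = ((X : K[X]) ^ d - C (π l) * Γ).degree := by
    apply exists_degree_eq_of_mem_lifts
    rw [mem_lifts]
    exact map_surjective π hπ _
  have h0 : (X ^ d - (C l * (-G) + ρ)).map π = 0 := by
    simp only [Polynomial.map_sub, Polynomial.map_add, Polynomial.map_mul, Polynomial.map_pow,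
      map_X, map_C, hρ]
    rw [← hΓ]; ring
  obtain ⟨h1, hh1⟩ := dvd_of_map_zero π p hp _ h0
  obtain ⟨m', rfl⟩ : ∃ m', m = m' + 1 := ⟨m - 1, by omega⟩
  obtain ⟨a', ha', h', hh'⟩ := lift_div π hπ p hp (-G) hd m' h1
  obtain ⟨u', hu'⟩ := sub2_congr f G a'
  have hdeg : (C (C l * X) + ρ.map C + C (C p) * a' : R[X][X]).degree < d := by
    apply lt_of_le_of_lt (degree_add_le _ _)
    rw [max_lt_iff]
    refine ⟨?_, ?_⟩
    · apply lt_of_le_of_lt (degree_add_le _ _)
      rw [max_lt_iff]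
      refine ⟨lt_of_le_of_lt degree_C_le (by exact_mod_cast hd), ?_⟩
      apply lt_of_le_of_lt degree_map_le
      rw [hρ']; exact hρd
    · apply lt_of_le_of_lt (degree_mul_le _ _)
      apply lt_of_le_of_lt _ ha'
      calc (C (C p)).degree + a'.degree ≤ 0 + a'.degree := by
            gcongr; exact degree_C_le
        _ = a'.degree := zero_add _
  refine ⟨X ^ d - (C (C l * X) + ρ.map C + C (C p) * a'),
    C h' - (l * f1) • X - (p * f1) • u', h'.map π, -(π (l * f1)), ?_, ?_, ?_, ?_, ?_⟩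
  · exact monic_X_pow_sub hdeg
  · have hne : Nontrivial R := ⟨⟨0, l, fun h => by
      rw [← h, map_zero] at hl; exact inv_ne_zero hlc hl.symm⟩⟩
    rw [natDegree_eq_of_degree_eq (degree_sub_eq_left_of_degree_lt (by rw [degree_X_pow]; exact hdeg)),
      natDegree_X_pow]
  · simp only [map_sub, map_add, map_mul, map_pow, sub2_X, sub2_C, aeval_X, aeval_C, sub2_mapC]
    rw [hu', ← C_eq_aeval, PP_eq, hf]
    have e1 : (C h1 : R[X][X]) = C (sub2 (-G) X a') + C (C (p ^ m')) * C h' := by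
      rw [hh', C_add, C_mul]
    have e2 : (C (X ^ d - (C l * (-G) + ρ)) : R[X][X]) = C (C p) * C h1 := by
      rw [hh1, C_mul]
    have e3 : (C X : R[X][X]) ^ d = C (C p) * C h1 + (C (C l) * C (-G) + C ρ) := by
      rw [← e2]; simp only [C_sub, C_add, C_mul, C_pow]; ring
    have e4 : ∀ r : R, (algebraMap R R[X][X]) r = C (C r) := fun r => rfl
    rw [e3, e1]
    simp only [smul_eq_CC, e4, C_mul, C_pow]
    ring
  · rw [neg_ne_zero, map_mul, hl]
    exact mul_ne_zero (inv_ne_zero hlc) (fun h => hf1 ((hp _).1 h))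
  · have hp0 : π p = 0 := (hp p).2 dvd_rfl
    simp only [smul_eq_CC, Polynomial.map_sub, Polynomial.map_mul, map_C, map_X, coe_mapRingHom,
      map_mul, hp0, zero_mul, C_0, sub_zero, C_neg]
    ring

end Pool.Agent.H78.Tri
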